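import Pool.Agent.H565.Win.Cost
import Pool.Agent.H409R3.Sub.Stmts
import Pool.Agent.H409R3.Ph1.Prefix

/-! The leg property of the words of the final family (S12077): the core, free of the definitions of
the families. -/

set_option autoImplicit false

namespace Pool.Agent.H409R3.Lg
open Finset Pool.Agent.H378R3.ND Pool.Agent.H565.Win Pool.Agent.H409R3.Sub
open scoped Classical

noncomputable section

theorem wn_eq_of {s : ℕ} {c : ℕ → ℕ} {i j : ℕ} (h : ∀ r < s, c (i + r) = c (j + r)) :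
    wn s c i = wn s c j := by
  unfold wn
  apply List.map_congr_left
  intro r hr
  rw [List.mem_range] at hr
  exact h r hr

/-- a repetition of the first `s` letters at the place `j ≥ s` is a bad window -/
theorem winBad_of {s : ℕ} {F : Finset (List ℕ)} {c : ℕ → ℕ} {j : ℕ} (hs : 1 ≤ s) (hj : s ≤ j)
    (h : ∀ r < s, c (j + r) = c r) : winBad s F (j + s - 1) c := by
  refine ⟨by omega, Or.inr ⟨0, by omega, Or.inl ?_⟩⟩
  have e : j + s - 1 + 1 - s = j := by omega
  rw [e]
  exact wn_eq_of (fun r hr => by rw [h r hr, Nat.zero_add])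

/-- the case of a leg with the first `α` at the place `τ - 1` -/
theorem core1 {α s τ n1 : ℕ} {F : Finset (List ℕ)} {c : ℕ → ℕ} (hs : 3 ≤ s) (hτ : 7 ≤ τ)
    (hn1 : 13 * s < n1)
    (hα : c (τ - 1) = α) (hnα : ∀ i, i < τ - 1 → c i ≠ α)
    (h0 : c 0 ≠ c 1 ∧ c 0 ≠ c 2 ∧ c 0 ≠ c 3 ∧ ¬ (c 0 = c 4 ∧ c 1 ≠ c 3))
    (hpat : c (τ - 2) = c (τ - 4) ∨ c (τ - 2) = c (τ - 5) ∨
      (c (τ - 2) = c (τ - 6) ∧ c (τ - 3) ≠ c (τ - 5)))
    (hwin : ∀ p, p < 24 * s → ¬ winBad s F p c)
    (hA2 : ∀ p, τ ≤ p → p < n1 → ¬ (c (p - 3) = α ∧ c (p - 2) ≠ α ∧ c (p - 1) ≠ α ∧ c p ≠ α ∧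
      c (p - 2) = c p))
    (hA3 : ∀ p, τ ≤ p → p < n1 → ¬ (c (p - 4) = α ∧ c (p - 3) ≠ α ∧ c (p - 2) ≠ α ∧
      c (p - 1) ≠ α ∧ c p ≠ α ∧ c (p - 3) = c p))
    (hA4 : ∀ p, τ ≤ p → p < n1 → ¬ (c (p - 5) = α ∧ c (p - 4) ≠ α ∧ c (p - 3) ≠ α ∧
      c (p - 2) ≠ α ∧ c (p - 1) ≠ α ∧ c p ≠ α ∧ c (p - 3) ≠ c (p - 1) ∧ c (p - 4) = c p))
    (hK : 2 * τ - 6 < n1 → ¬ ∀ r, r < τ - 5 → c (τ + r) = c r)
    (hL : ∀ p, 2 * τ ≤ p → p < n1 → c (p - τ) = α → ¬ ∀ r < τ, c (p + 1 - τ + r) = c r) :
    Leg α (fun i => c (i - 1)) (12 * s) := by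
  -- the first `α` is at the place `τ`
  have first : ∀ t, 1 ≤ t → c (t - 1) = α → (∀ r, 1 ≤ r → r < t → c (r - 1) ≠ α) → t = τ := by
    intro t ht h1 h2
    by_contra hne
    rcases Nat.lt_or_gt_of_ne hne with h | h
    · exact hnα (t - 1) (by omega) h1
    · exact h2 τ (by omega) h hα
  refine ⟨?_, ?_, ?_, ?_, ?_⟩
  · refine ⟨hnα 0 (by omega), h0.1, h0.2.1, h0.2.2.1, h0.2.2.2⟩
  · intro t ht _ h1 h2
    have ht' := first t ht h1 h2
    subst ht'
    rcases hpat with h | h | ⟨h, h'⟩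
    · refine ⟨2, Or.inl rfl, by omega, ?_⟩
      show c (t - 1 - 1) = c (t - 1 - 2 - 1)
      rw [show t - 1 - 1 = t - 2 by omega, show t - 1 - 2 - 1 = t - 4 by omega]
      exact h
    · refine ⟨3, Or.inr (Or.inl rfl), by omega, ?_⟩
      show c (t - 1 - 1) = c (t - 1 - 3 - 1)
      rw [show t - 1 - 1 = t - 2 by omega, show t - 1 - 3 - 1 = t - 5 by omega]
      exact h
    · refine ⟨4, Or.inr (Or.inr ⟨rfl, ?_⟩), by omega, ?_⟩
      · show c (t - 2 - 1) ≠ c (t - 4 - 1)
        rw [show t - 2 - 1 = t - 3 by omega, show t - 4 - 1 = t - 5 by omega]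
        exact h'
      · show c (t - 1 - 1) = c (t - 1 - 4 - 1)
        rw [show t - 1 - 1 = t - 2 by omega, show t - 1 - 4 - 1 = t - 6 by omega]
        exact h
  · intro q hq hqT hqα d hd hno heq
    have hqα' : c (q - 1) = α := hqα
    have hqτ : τ ≤ q := by
      by_contra hcon
      exact hnα (q - 1) (by omega) hqα'
    have hno' : ∀ r, 1 ≤ r → r ≤ d + 1 → c (q + r - 1) ≠ α := hno
    have heq' : c (q + 1 - 1) = c (q + 1 + d - 1) := heq
    rcases hd with rfl | rfl | ⟨rfl, hd⟩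
    · apply hA2 (q + 2) (by omega) (by omega)
      have a1 := hno' 1 (by norm_num) (by norm_num)
      have a2 := hno' 2 (by norm_num) (by norm_num)
      have a3 := hno' 3 (by norm_num) (by norm_num)
      rw [show q + 1 - 1 = q by omega] at a1
      rw [show q + 2 - 1 = q + 1 by omega] at a2
      rw [show q + 3 - 1 = q + 2 by omega] at a3
      rw [show q + 1 - 1 = q by omega, show q + 1 + 2 - 1 = q + 2 by omega] at heq'
      rw [show q + 2 - 3 = q - 1 by omega, show q + 2 - 2 = q by omega,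
        show q + 2 - 1 = q + 1 by omega]
      exact ⟨hqα', a1, a2, a3, heq'⟩
    · apply hA3 (q + 3) (by omega) (by omega)
      have a1 := hno' 1 (by norm_num) (by norm_num)
      have a2 := hno' 2 (by norm_num) (by norm_num)
      have a3 := hno' 3 (by norm_num) (by norm_num)
      have a4 := hno' 4 (by norm_num) (by norm_num)
      rw [show q + 1 - 1 = q by omega] at a1
      rw [show q + 2 - 1 = q + 1 by omega] at a2
      rw [show q + 3 - 1 = q + 2 by omega] at a3
      rw [show q + 4 - 1 = q + 3 by omega] at a4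
      rw [show q + 1 - 1 = q by omega, show q + 1 + 3 - 1 = q + 3 by omega] at heq'
      rw [show q + 3 - 4 = q - 1 by omega, show q + 3 - 3 = q by omega,
        show q + 3 - 2 = q + 1 by omega, show q + 3 - 1 = q + 2 by omega]
      exact ⟨hqα', a1, a2, a3, a4, heq'⟩
    · apply hA4 (q + 4) (by omega) (by omega)
      have a1 := hno' 1 (by norm_num) (by norm_num)
      have a2 := hno' 2 (by norm_num) (by norm_num)
      have a3 := hno' 3 (by norm_num) (by norm_num)
      have a4 := hno' 4 (by norm_num) (by norm_num)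
      have a5 := hno' 5 (by norm_num) (by norm_num)
      rw [show q + 1 - 1 = q by omega] at a1
      rw [show q + 2 - 1 = q + 1 by omega] at a2
      rw [show q + 3 - 1 = q + 2 by omega] at a3
      rw [show q + 4 - 1 = q + 3 by omega] at a4
      rw [show q + 5 - 1 = q + 4 by omega] at a5
      rw [show q + 1 - 1 = q by omega, show q + 1 + 4 - 1 = q + 4 by omega] at heq'
      have hd' : c (q + 2 - 1) ≠ c (q + 4 - 1) := hd
      rw [show q + 2 - 1 = q + 1 by omega, show q + 4 - 1 = q + 3 by omega] at hd'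
      rw [show q + 4 - 5 = q - 1 by omega, show q + 4 - 4 = q by omega,
        show q + 4 - 3 = q + 1 by omega, show q + 4 - 2 = q + 2 by omega,
        show q + 4 - 1 = q + 3 by omega]
      exact ⟨hqα', a1, a2, a3, a4, a5, hd', heq'⟩
  · intro t ht htT h1 h2
    have ht' := first t ht h1 h2
    subst ht'
    by_contra hcon
    push Not at hcon
    have key : ∀ r, r < t - 5 → c (t + r) = c r := by
      intro r hr
      have := hcon (r + 1) (by omega) (by omega)
      have h3 : c (t + (r + 1) - 1) = c (r + 1 - 1) := this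
      rw [show t + (r + 1) - 1 = t + r by omega, show r + 1 - 1 = r by omega] at h3
      exact h3
    by_cases hts : s + 5 ≤ t
    · exact hwin (t + s - 1) (by omega)
        (winBad_of (by omega) (by omega) (fun r hr => key r (by omega)))
    · exact hK (by omega) key
  · intro u t hu hut htT h1 h2 h3
    have hu' := first u hu h1 h2
    subst hu'
    by_contra hcon
    push Not at hcon
    have key : ∀ r, r < u → c (t + r) = c r := by
      intro r hr
      have := hcon (r + 1) (by omega) (by omega)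
      have h3 : c (t + (r + 1) - 1) = c (r + 1 - 1) := this
      rw [show t + (r + 1) - 1 = t + r by omega, show r + 1 - 1 = r by omega] at h3
      exact h3
    by_cases hts : s ≤ u
    · exact hwin (t + s - 1) (by omega)
        (winBad_of (by omega) (by omega) (fun r hr => key r (by omega)))
    · refine hL (t + u - 1) (by omega) (by omega) ?_ ?_
      · rw [show t + u - 1 - u = t - 1 by omega]
        exact h3
      · intro r hr
        rw [show t + u - 1 + 1 - u + r = t + r by omega]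
        exact key r hr

/-- the case of a leg without `α` at the beginning -/
theorem core2 {α s n1 : ℕ} {c : ℕ → ℕ} (hn1 : 12 * s ≤ n1) (hn2 : 1 ≤ n1)
    (hnα : ∀ i, i < n1 → c i ≠ α)
    (h0 : c 0 ≠ c 1 ∧ c 0 ≠ c 2 ∧ c 0 ≠ c 3 ∧ ¬ (c 0 = c 4 ∧ c 1 ≠ c 3)) :
    Leg α (fun i => c (i - 1)) (12 * s) := by
  refine ⟨⟨hnα 0 (by omega), h0.1, h0.2.1, h0.2.2.1, h0.2.2.2⟩, ?_, ?_, ?_, ?_⟩
  · intro t ht htT h1 _
    exact absurd h1 (hnα (t - 1) (by omega))
  · intro q hq hqT h1
    exact absurd h1 (hnα (q - 1) (by omega))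
  · intro t ht htT h1 _
    exact absurd h1 (hnα (t - 1) (by omega))
  · intro u t hu hut htT h1
    exact absurd h1 (hnα (u - 1) (by omega))

end
end Pool.Agent.H409R3.Lg
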