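import Pool.Agent.H378R3.ND.LegF
import Pool.Agent.H409R3.Leg.Core

/-! The leg property of the words of the final families (S12077), and the facts on phase 1. -/

set_option autoImplicit false

namespace Pool.Agent.H409R3.Lg
open Finset Pool.Agent.H378R3.ND Pool.Agent.H565.Win Pool.Agent.H409R3.Sub
open scoped Classical

noncomputable section

variable {V ok1 : ℕ → (ℕ → ℕ) → Prop} {ℒ1 L : ℕ → Finset ℕ} {α s : ℕ} {F : Finset (List ℕ)}

/-- the condition on the first five letters -/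
theorem first5 (h : P1 ok1 ℒ1 α s F) {c : ℕ → ℕ} (h1 : ∀ k < 6, c k ∈ ℒ1 k)
    (h2 : ∀ p < 6, ok1 p c) :
    c 0 ≠ c 1 ∧ c 0 ≠ c 2 ∧ c 0 ≠ c 3 ∧ ¬ (c 0 = c 4 ∧ c 1 ≠ c 3) := by
  have hW : trunc 6 c ∈ W ok1 ℒ1 6 := trunc_mem h.loc h1 h2
  have h3 := h.l0 6 le_rfl _ hW
  have h4 := sqf_ne (h.good 1 c (h2 1 (by norm_num))).1 le_rfl
  have e0 : trunc 6 c 0 = c 0 := by simp [trunc]
  have e1 : trunc 6 c 1 = c 1 := by simp [trunc]
  have e2 : trunc 6 c 2 = c 2 := by simp [trunc]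
  have e3 : trunc 6 c 3 = c 3 := by simp [trunc]
  have e4 : trunc 6 c 4 = c 4 := by simp [trunc]
  rw [e0, e1, e2, e3, e4] at h3
  exact ⟨h4, h3⟩

/-- (L1) the leg property, case 1 -/
theorem leg_case1 {τ n1 m : ℕ} {c : ℕ → ℕ} {L' : ℕ → Finset ℕ} (h : P1 ok1 ℒ1 α s F) (hs : 3 ≤ s)
    (hτ : 7 ≤ τ) (hτ2 : τ ≤ 13 * s) (hn1 : 13 * s < n1) (hn1' : n1 ≤ 15 * s)
    (hV : ∀ p c, V p c → ¬ winBad s F p c) (hm : 24 * s ≤ m)
    (hc : c ∈ W (okF V ok1 ℒ1 L α s F τ n1) L' m) : Leg α (fun i => c (i - 1)) (12 * s) := by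
  rw [mem_W] at hc
  obtain ⟨_, hok⟩ := hc
  have hlow : ∀ p, p < n1 → c p ∈ liC ℒ1 L α τ p ∧ okC ok1 α s F τ p c := by
    intro p hp
    have := hok p (by omega)
    rwa [okF, if_pos hp] at this
  have h1 : ∀ p, p + 1 < τ → p < n1 → c p ∈ ℒ1 p ∧ ok1 p c := by
    intro p hp hp'
    have := hlow p hp'
    rwa [liC, if_pos hp, okC, if_pos hp] at this
  have hτn : τ - 1 < n1 := by omega
  have hτp := hlow (τ - 1) hτn
  rw [liC, if_neg (by omega), if_pos (by omega), okC, if_neg (by omega), if_pos (by omega),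
    mem_singleton] at hτp
  have hhi : ∀ p, τ ≤ p → p < n1 → sqf p c ∧ AlwC α p c ∧ ¬ KEv τ p c ∧ ¬ LEv α τ p c ∧
      ¬ wb s F p c := by
    intro p hp hp'
    have := (hlow p hp').2
    rwa [okC, if_neg (by omega), if_neg (by omega)] at this
  refine core1 (F := F) (n1 := n1) hs hτ hn1 hτp.1 ?_ ?_ ?_ ?_ ?_ ?_ ?_ ?_ ?_
  · intro i hi he
    have := (h1 i (by omega) (by omega)).1
    rw [he] at this
    exact h.nα i this
  · exact first5 h (fun k hk => (h1 k (by omega) (by omega)).1)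
      (fun p hp => (h1 p (by omega) (by omega)).2)
  · have := hτp.2.1
    unfold pat at this
    rw [show τ - 1 - 1 = τ - 2 by omega, show τ - 1 - 3 = τ - 4 by omega,
      show τ - 1 - 4 = τ - 5 by omega, show τ - 1 - 5 = τ - 6 by omega,
      show τ - 1 - 2 = τ - 3 by omega] at this
    exact this
  · intro p hp hw
    by_cases hpn : p < n1
    · exact all_wb h (hlow p hpn).2 ⟨by omega, hw⟩
    · have := hok p (by omega)
      rw [okF, if_neg hpn] at this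
      exact hV p c this hw
  · rintro p hp hp' ⟨a, b, d, e, f⟩
    have := (hhi p hp hp').2.1
    unfold AlwC Alw at this
    exact this.2.2.2.1 ⟨a, b, d, f.symm⟩
  · rintro p hp hp' ⟨a, b, d, e, f, g⟩
    have := (hhi p hp hp').2.1
    unfold AlwC Alw at this
    exact this.2.2.2.2.1 ⟨a, b, d, e, g.symm⟩
  · rintro p hp hp' ⟨a, b, d, e, f, g, i, j⟩
    have := (hhi p hp hp').2.1
    unfold AlwC Alw at this
    exact this.2.2.2.2.2 ⟨a, b, d, e, f, j.symm, i⟩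
  · intro hp hr
    exact (hhi (2 * τ - 6) (by omega) hp).2.2.1 ⟨by omega, hr⟩
  · intro p hp hp' ha hr
    refine (hhi p (by omega) hp').2.2.2.1 ⟨hp, ha, fun r hr' => ?_⟩
    rw [show p - τ + 1 + r = p + 1 - τ + r by omega]
    exact hr r hr'

/-- (L2) the leg property, case 2 -/
theorem leg_case2 {n1 m : ℕ} {c : ℕ → ℕ} {L' : ℕ → Finset ℕ} (h : P1 ok1 ℒ1 α s F)
    (hn1 : 12 * s + 6 ≤ n1) (hn1m : n1 ≤ m)
    (hc : c ∈ W (okG V ok1 ℒ1 n1) L' m) : Leg α (fun i => c (i - 1)) (12 * s) := by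
  rw [mem_W] at hc
  obtain ⟨_, hok⟩ := hc
  have hlow : ∀ p, p < n1 → c p ∈ ℒ1 p ∧ ok1 p c := by
    intro p hp
    have := hok p (by omega)
    rwa [okG, if_pos hp] at this
  refine core2 (n1 := n1) (by omega) (by omega) ?_ ?_
  · intro i hi he
    have := (hlow i hi).1
    rw [he] at this
    exact h.nα i this
  · exact first5 h (fun k hk => (hlow k (by omega)).1) (fun p hp => (hlow p (by omega)).2)

/-- the window condition of phase 1 -/
def wn1 (s : ℕ) (F : Finset (List ℕ)) (p : ℕ) (c : ℕ → ℕ) : Prop := ¬ wb s F p c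

theorem wn1_local (hs : 1 ≤ s) : Local (wn1 s F) := fun _ _ _ h hw => wb_congr hs h hw

/-- (P) phase 1 delivers `P1`. -/
theorem phase1 (hL : ∀ k, (L k).card = 4) (hs : 7 ≤ s) :
    ∃ q : ℕ → ℕ,
      P1 (Ph1.ok α L (wn1 s F)) (Ph1.ls α L q) α s F ∧
      trunc 6 q ∈ W (Ph1.ok α L (wn1 s F)) (Ph1.ls α L q) 6 ∧
      q 5 ≠ q 3 ∧ q 0 ≠ q 2 ∧ q 1 ≠ q 2 := by
  obtain ⟨q, hq1, hq2, hq3, hq4, hq5⟩ := Ph1.exists_prefix α L hL
  have hloc : Local (wn1 s F) := wn1_local (by omega)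
  have hwin : ∀ m < 6, wn1 s F m q := by
    rintro m hm ⟨_, h1, _⟩
    omega
  have h6 := Ph1.prefix_mem (α := α) (L := L) hloc hwin hq3
  refine ⟨q, ?_, h6, hq4, hq2.2.1, hq5⟩
  refine ⟨Ph1.local_ok hloc, ?_, ?_, ?_, ?_, ?_⟩
  · rintro p c ⟨h1, h2, _⟩
    refine ⟨fun t ht hS => h1 t ⟨ht, hS.1, hS.2⟩, h2⟩
  · intro k
    unfold Ph1.ls
    split_ifs with hk
    · rw [mem_singleton]
      intro he
      have := hq1 k hk
      rw [← he] at this
      exact absurd this (notMem_erase _ _)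
    · exact notMem_erase _ _
  · intro k hk
    exact Ph1.N_le_one hk
  · have h2 : 1 ≤ (W (Ph1.ok α L (wn1 s F)) (Ph1.ls α L q) 6).card := card_pos.2 ⟨_, h6⟩
    unfold N
    exact_mod_cast h2
  · intro m hm c hc
    have hv : ∀ k, k < 6 → c k = q k := fun k hk => Ph1.val_qW hc (by omega) hk
    rw [hv 0 (by norm_num), hv 1 (by norm_num), hv 2 (by norm_num), hv 3 (by norm_num),
      hv 4 (by norm_num)]
    exact ⟨hq2.2.1, hq2.2.2.1, hq2.2.2.2⟩

end
end Pool.Agent.H409R3.Lg
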